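import Mathlib

set_option autoImplicit false
open Set Finset

namespace Pool.Agent.Lib.MP_dca756_an.Exact

section Volterra

variable {m : ℕ}

/-- The Volterra form: `x k * (sum of x + (A x) k)`. -/
noncomputable def W (A : Fin m → Fin m → ℝ) (x : Fin m → ℝ) : Fin m → ℝ :=
  fun k => x k * (∑ j, (1 + A k j) * x j)

lemma W_sum {A : Fin m → Fin m → ℝ} (hA : ∀ i j, A i j = - A j i) (x : Fin m → ℝ) :
    ∑ k, W A x k = (∑ k, x k) ^ 2 := by
  have h1 : ∑ k, W A x k = ∑ k, ∑ j, x k * x j + ∑ k, ∑ j, A k j * x k * x j := by
    rw [← Finset.sum_add_distrib]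
    refine Finset.sum_congr rfl fun k _ => ?_
    rw [W, Finset.mul_sum, ← Finset.sum_add_distrib]
    refine Finset.sum_congr rfl fun j _ => ?_
    ring
  have h2 : ∑ k, ∑ j, A k j * x k * x j = 0 := by
    have h3 : ∑ k, ∑ j, A k j * x k * x j = - ∑ k, ∑ j, A k j * x k * x j := by
      conv_lhs => rw [Finset.sum_comm]
      rw [← Finset.sum_neg_distrib]
      refine Finset.sum_congr rfl fun k _ => ?_
      rw [← Finset.sum_neg_distrib]
      refine Finset.sum_congr rfl fun j _ => ?_
      rw [hA j k]; ring
    linarith
  rw [h1, h2, add_zero, sq, Finset.sum_mul_sum]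

lemma lower {A : Fin m → Fin m → ℝ} (hA0 : ∀ i, A i i = 0) (hA1 : ∀ i j, -1 ≤ A i j)
    {x : Fin m → ℝ} (hx : ∀ i, 0 ≤ x i) (k : Fin m) : x k ≤ ∑ j, (1 + A k j) * x j := by
  calc x k = (1 + A k k) * x k := by rw [hA0]; ring
    _ ≤ ∑ j, (1 + A k j) * x j :=
        Finset.single_le_sum (f := fun j => (1 + A k j) * x j)
          (fun j _ => mul_nonneg (by linarith [hA1 k j]) (hx j)) (Finset.mem_univ k)

/-- The derivative. -/
noncomputable def D (A : Fin m → Fin m → ℝ) (x : Fin m → ℝ) : (Fin m → ℝ) →L[ℝ] (Fin m → ℝ) :=
  ContinuousLinearMap.pi fun k =>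
    x k • (∑ j, (1 + A k j) • ContinuousLinearMap.proj (R := ℝ) (φ := fun _ : Fin m => ℝ) j) +
      (∑ j, (1 + A k j) * x j) • ContinuousLinearMap.proj (R := ℝ) (φ := fun _ : Fin m => ℝ) k

lemma D_apply (A : Fin m → Fin m → ℝ) (x v : Fin m → ℝ) (k : Fin m) :
    D A x v k = x k * (∑ j, (1 + A k j) * v j) + (∑ j, (1 + A k j) * x j) * v k := by
  simp [D]

lemma hasStrict (A : Fin m → Fin m → ℝ) (x : Fin m → ℝ) : HasStrictFDerivAt (W A) (D A x) x := by
  rw [hasStrictFDerivAt_pi']
  intro k
  have h1 : HasStrictFDerivAt (fun y : Fin m → ℝ => y k)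
      (ContinuousLinearMap.proj (R := ℝ) (φ := fun _ : Fin m => ℝ) k) x :=
    (ContinuousLinearMap.proj (R := ℝ) (φ := fun _ : Fin m => ℝ) k).hasStrictFDerivAt
  have h2 : HasStrictFDerivAt (fun y : Fin m → ℝ => ∑ j, (1 + A k j) * y j)
      (∑ j, (1 + A k j) • ContinuousLinearMap.proj (R := ℝ) (φ := fun _ : Fin m => ℝ) j) x := by
    refine HasStrictFDerivAt.fun_sum fun j _ => ?_
    exact ((ContinuousLinearMap.proj (R := ℝ) (φ := fun _ : Fin m => ℝ) j).hasStrictFDerivAt).const_mul _
  have h3 := h1.mul h2
  have e1 : ContinuousLinearMap.comp (ContinuousLinearMap.proj (R := ℝ) (φ := fun _ : Fin m => ℝ) k) (D A x) =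
      x k • (∑ j, (1 + A k j) • ContinuousLinearMap.proj (R := ℝ) (φ := fun _ : Fin m => ℝ) j) +
      (∑ j, (1 + A k j) * x j) • ContinuousLinearMap.proj (R := ℝ) (φ := fun _ : Fin m => ℝ) k := by
    ext v
    rfl
  rw [e1]
  exact h3

lemma D_inj {A : Fin m → Fin m → ℝ} (hA : ∀ i j, A i j = - A j i) (hA1 : ∀ i j, -1 ≤ A i j)
    {x : Fin m → ℝ} (hx : ∀ i, 0 < x i) : Function.Injective (D A x) := by
  have hA0 : ∀ i, A i i = 0 := fun i => by have := hA i i; linarith
  rw [injective_iff_map_eq_zero]
  intro v hv
  have hk : ∀ k, x k * (∑ j, (1 + A k j) * v j) + (∑ j, (1 + A k j) * x j) * v k = 0 := by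
    intro k
    rw [← D_apply, hv]; rfl
  rcases Nat.eq_zero_or_pos m with rfl | hm
  · exact Subsingleton.elim _ _
  have : Nonempty (Fin m) := ⟨⟨0, hm⟩⟩
  have hS : 0 < ∑ k, x k := Finset.sum_pos (fun i _ => hx i) Finset.univ_nonempty
  -- sum of `v` vanishes
  have hsum : ∑ k, (x k * (∑ j, (1 + A k j) * v j) + (∑ j, (1 + A k j) * x j) * v k) =
      2 * (∑ k, x k) * ∑ k, v k := by
    have e1 : ∑ k, x k * (∑ j, (1 + A k j) * v j) = ∑ k, ∑ j, (1 + A k j) * x k * v j := by
      refine Finset.sum_congr rfl fun k _ => ?_
      rw [Finset.mul_sum]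
      refine Finset.sum_congr rfl fun j _ => ?_
      ring
    have e2 : ∑ k, (∑ j, (1 + A k j) * x j) * v k = ∑ k, ∑ j, (1 + A j k) * x k * v j := by
      rw [Finset.sum_comm]
      refine Finset.sum_congr rfl fun k _ => ?_
      rw [Finset.sum_mul]
    rw [Finset.sum_add_distrib, e1, e2, ← Finset.sum_add_distrib, mul_assoc, Finset.sum_mul_sum,
      Finset.mul_sum]
    refine Finset.sum_congr rfl fun k _ => ?_
    rw [← Finset.sum_add_distrib, Finset.mul_sum]
    refine Finset.sum_congr rfl fun j _ => ?_
    rw [hA j k]; ring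
  have hv0 : ∑ k, v k = 0 := by
    have : 2 * (∑ k, x k) * ∑ k, v k = 0 := by
      rw [← hsum]; exact Finset.sum_eq_zero fun k _ => hk k
    rcases mul_eq_zero.1 this with h | h
    · nlinarith
    · exact h
  -- quadratic form
  have hq : ∑ k, (∑ j, (1 + A k j) * x j) / x k * v k ^ 2 = 0 := by
    have e : ∀ k, (∑ j, (1 + A k j) * x j) / x k * v k ^ 2 = - ∑ j, (1 + A k j) * v j * v k := by
      intro k
      have := hk k
      have hxk := (hx k).ne'
      rw [← Finset.sum_mul]
      field_simp
      linear_combination v k * this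
    simp_rw [e]
    rw [Finset.sum_neg_distrib, neg_eq_zero]
    have e3 : ∑ k, ∑ j, (1 + A k j) * v j * v k = ∑ k, W A v k := by
      refine Finset.sum_congr rfl fun k _ => ?_
      rw [W, Finset.mul_sum]
      refine Finset.sum_congr rfl fun j _ => ?_
      ring
    rw [e3, W_sum hA, hv0]; ring
  have hnonneg : ∀ k ∈ Finset.univ, 0 ≤ (∑ j, (1 + A k j) * x j) / x k * v k ^ 2 := by
    intro k _
    have := lower hA0 hA1 (fun i => (hx i).le) k
    have := hx k
    have h3 : 0 ≤ ∑ j, (1 + A k j) * x j := by linarith
    positivity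
  have hall := (Finset.sum_eq_zero_iff_of_nonneg hnonneg).1 hq
  ext k
  have h1 := hall k (Finset.mem_univ k)
  have h2 := lower hA0 hA1 (fun i => (hx i).le) k
  have h3 := hx k
  have h4 : 0 < (∑ j, (1 + A k j) * x j) / x k := div_pos (by linarith) h3
  rcases mul_eq_zero.1 h1 with h | h
  · exact absurd h h4.ne'
  · exact pow_eq_zero_iff (two_ne_zero) |>.1 h

lemma W_surj {A : Fin m → Fin m → ℝ} (hA : ∀ i j, A i j = - A j i) (hA1 : ∀ i j, -1 ≤ A i j) :
    W A '' stdSimplex ℝ (Fin m) = stdSimplex ℝ (Fin m) := by
  have hA0 : ∀ i, A i i = 0 := fun i => by have := hA i i; linarith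
  rcases Nat.eq_zero_or_pos m with rfl | hm
  · have : stdSimplex ℝ (Fin 0) = ∅ := by
      ext x
      simp [stdSimplex]
    rw [this, image_empty]
  have : Nonempty (Fin m) := ⟨⟨0, hm⟩⟩
  have hWc : Continuous (W A) := by unfold W; fun_prop
  have hmaps : MapsTo (W A) (stdSimplex ℝ (Fin m)) (stdSimplex ℝ (Fin m)) := by
    intro x hx
    refine ⟨fun k => mul_nonneg (hx.1 k) ((hx.1 k).trans (lower hA0 hA1 hx.1 k)), ?_⟩
    rw [W_sum hA, hx.2]; norm_num
  refine Subset.antisymm (image_subset_iff.2 hmaps) ?_
  set Δ := stdSimplex ℝ (Fin m) with hΔ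
  set Δo : Set (Fin m → ℝ) := {x | (∀ i, 0 < x i) ∧ ∑ i, x i = 1} with hΔo
  set U : Set (Fin m → ℝ) := {x | ∀ i, 0 < x i} with hU
  have hcomp : IsCompact (W A '' Δ) := (isCompact_stdSimplex (𝕜 := ℝ) (Fin m)).image hWc
  have hconv : Convex ℝ Δo := by
    intro x hx y hy a b ha hb hab
    refine ⟨fun i => ?_, ?_⟩
    · simp only [Pi.add_apply, Pi.smul_apply, smul_eq_mul]
      rcases ha.eq_or_lt with h | h
      · have : b = 1 := by linarith
        rw [← h, this]; simpa using hy.1 i
      · have := mul_pos h (hx.1 i)
        have := mul_nonneg hb (hy.1 i).le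
        linarith
    · simp only [Pi.add_apply, Pi.smul_apply, smul_eq_mul]
      rw [Finset.sum_add_distrib, ← Finset.mul_sum, ← Finset.mul_sum, hx.2, hy.2]
      linarith
  have hpre : IsPreconnected Δo := hconv.isPreconnected
  have hO1 : IsOpen (W A '' U) := by
    rw [isOpen_iff_mem_nhds]
    rintro _ ⟨x, hx, rfl⟩
    have hsurj : (D A x).range = ⊤ := by
      rw [LinearMap.range_eq_top]
      exact (LinearMap.injective_iff_surjective (f := (D A x : (Fin m → ℝ) →ₗ[ℝ] (Fin m → ℝ)))).1
        (D_inj hA hA1 hx)
    rw [← (hasStrict A x).map_nhds_eq_of_surj hsurj]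
    have hUo : IsOpen U := by
      rw [hU]
      have : {x : Fin m → ℝ | ∀ i, 0 < x i} = ⋂ i, {x | 0 < x i} := by ext; simp
      rw [this]
      exact isOpen_iInter_of_finite fun i => isOpen_lt continuous_const (continuous_apply i)
    exact Filter.image_mem_map (hUo.mem_nhds hx)
  have hsub : Δo ⊆ W A '' Δ := by
    intro y hy
    by_contra hcon
    have hcover : Δo ⊆ W A '' U ∪ (W A '' Δ)ᶜ := by
      intro y hy
      by_cases h : y ∈ W A '' Δ
      · left
        obtain ⟨x, hx, rfl⟩ := h
        refine ⟨x, fun k => ?_, rfl⟩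
        have h1 := hy.1 k
        rcases (hx.1 k).eq_or_lt with h2 | h2
        · rw [W, ← h2, zero_mul] at h1; exact absurd h1 (lt_irrefl _)
        · exact h2
      · right; exact h
    have hne1 : (Δo ∩ W A '' U).Nonempty := by
      set b : Fin m → ℝ := fun _ => 1 / m with hb
      have hm' : (0 : ℝ) < m := by exact_mod_cast hm
      have hbU : b ∈ U := fun i => by rw [hb]; positivity
      have hbs : ∑ i, b i = 1 := by
        simp only [hb, Finset.sum_const, Finset.card_univ, Fintype.card_fin, nsmul_eq_mul]
        field_simp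
      refine ⟨W A b, ⟨fun k => ?_, ?_⟩, ⟨b, hbU, rfl⟩⟩
      · exact mul_pos (hbU k) ((hbU k).trans_le (lower hA0 hA1 (fun i => (hbU i).le) k))
      · rw [W_sum hA, hbs]; norm_num
    obtain ⟨z, hz, hz1, hz2⟩ := hpre (W A '' U) (W A '' Δ)ᶜ hO1 hcomp.isClosed.isOpen_compl hcover
      hne1 ⟨y, hy, hcon⟩
    obtain ⟨x, hx, rfl⟩ := hz1
    refine hz2 ⟨x, ⟨fun k => (hx k).le, ?_⟩, rfl⟩
    have h1 := hz.2
    rw [W_sum hA] at h1
    have h2 : 0 < ∑ k, x k := Finset.sum_pos (fun i _ => hx i) Finset.univ_nonempty
    nlinarith
  intro y hy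
  -- approximate `y` by interior points
  set b : Fin m → ℝ := fun _ => 1 / m with hb
  have hm' : (0 : ℝ) < m := by exact_mod_cast hm
  have hbs : ∑ i, b i = 1 := by
    simp only [hb, Finset.sum_const, Finset.card_univ, Fintype.card_fin, nsmul_eq_mul]
    field_simp
  set yn : ℕ → Fin m → ℝ := fun n k => (1 - 1 / ((n : ℝ) + 1)) * y k + 1 / ((n : ℝ) + 1) * b k with hyn
  have hlim : Filter.Tendsto yn Filter.atTop (nhds y) := by
    rw [tendsto_pi_nhds]
    intro k
    have h0 := tendsto_one_div_add_atTop_nhds_zero_nat (𝕜 := ℝ)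
    have h1 : Filter.Tendsto (fun n : ℕ => (1 - 1 / ((n : ℝ) + 1)) * y k + 1 / ((n : ℝ) + 1) * b k)
        Filter.atTop (nhds ((1 - 0) * y k + 0 * b k)) :=
      ((tendsto_const_nhds.sub h0).mul_const _).add (h0.mul_const _)
    rw [sub_zero, one_mul, zero_mul, add_zero] at h1
    exact h1
  refine hcomp.isClosed.mem_of_tendsto hlim (Filter.Eventually.of_forall fun n => hsub ⟨fun k => ?_, ?_⟩)
  · have h1 : 0 < 1 / ((n : ℝ) + 1) := by positivity
    have h2 : 1 / ((n : ℝ) + 1) ≤ 1 := by
      rw [div_le_one (by positivity)]; linarith [n.cast_nonneg (α := ℝ)]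
    have h3 : 0 < b k := by rw [hb]; positivity
    have h4 := hy.1 k
    have h5 : 0 ≤ (1 - 1 / ((n : ℝ) + 1)) * y k := mul_nonneg (by linarith) h4
    have h6 : 0 < 1 / ((n : ℝ) + 1) * b k := mul_pos h1 h3
    exact add_pos_of_nonneg_of_pos h5 h6
  · simp only [hyn]
    rw [Finset.sum_add_distrib, ← Finset.mul_sum, ← Finset.mul_sum, hbs, hy.2]
    ring

end Volterra

/-- Main theorem. -/
theorem exact_criterion (m : ℕ) (P : Fin m → Fin m → Fin m → ℝ) (hpos : ∀ i j k, 0 ≤ P i j k)
    (hsymm : ∀ i j k, P i j k = P j i k) (hsum : ∀ i j, ∑ k, P i j k = 1) :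
    (fun (x : Fin m → ℝ) (k : Fin m) => ∑ i, ∑ j, P i j k * x i * x j) '' stdSimplex ℝ (Fin m) =
        stdSimplex ℝ (Fin m) ↔
      ∃! π : Equiv.Perm (Fin m), ∀ i j k, k ≠ π i → k ≠ π j → P i j k = 0 := by
  set V : (Fin m → ℝ) → (Fin m → ℝ) := fun x k => ∑ i, ∑ j, P i j k * x i * x j with hV
  have huniq : ∀ π : Equiv.Perm (Fin m), (∀ i j k, k ≠ π i → k ≠ π j → P i j k = 0) →
      ∀ i, P i i (π i) = 1 := by
    intro π hπ i
    rw [← hsum i i]
    symm
    refine Finset.sum_eq_single (π i) (fun k _ hk => hπ i i k hk hk) (fun h => absurd (Finset.mem_univ _) h)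
  have hterm : ∀ (x : Fin m → ℝ), (∀ i, 0 ≤ x i) → ∀ i j k, P i j k * x i * x j ≤ V x k := by
    intro x hx i j k
    calc P i j k * x i * x j ≤ ∑ j, P i j k * x i * x j :=
          Finset.single_le_sum (f := fun j => P i j k * x i * x j)
            (fun j _ => mul_nonneg (mul_nonneg (hpos i j k) (hx i)) (hx j)) (Finset.mem_univ j)
      _ ≤ ∑ i, ∑ j, P i j k * x i * x j :=
          Finset.single_le_sum (f := fun i => ∑ j, P i j k * x i * x j)
            (fun i _ => Finset.sum_nonneg fun j _ =>
              mul_nonneg (mul_nonneg (hpos i j k) (hx i)) (hx j)) (Finset.mem_univ i)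
  constructor
  · intro hsurj
    -- vertices
    have hvert : ∀ k, ∃ i, P i i k = 1 := by
      intro k
      have hek : (Pi.single k 1 : Fin m → ℝ) ∈ stdSimplex ℝ (Fin m) := single_mem_stdSimplex ℝ k
      rw [← hsurj] at hek
      obtain ⟨x, hx, hxk⟩ := hek
      have hxs : ∃ i, 0 < x i := by
        by_contra hcon
        push Not at hcon
        have h1 : ∑ i, x i ≤ 0 := Finset.sum_nonpos fun i _ => hcon i
        rw [hx.2] at h1
        linarith
      obtain ⟨i, hi⟩ := hxs
      refine ⟨i, ?_⟩
      rw [← hsum i i]
      symm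
      refine Finset.sum_eq_single k (fun l _ hl => ?_) (fun h => absurd (Finset.mem_univ _) h)
      have h1 := hterm x hx.1 i i l
      have h2 : V x l = 0 := by
        have := congrFun hxk l
        rw [this, Pi.single_eq_of_ne hl]
      rw [h2] at h1
      have h3 := hpos i i l
      have h4 : 0 < x i * x i := mul_pos hi hi
      nlinarith
    choose σ hσ using hvert
    have hσinj : Function.Injective σ := by
      intro k l hkl
      by_contra hne
      have h1 := hσ k
      have h2 := hσ l
      rw [← hkl] at h2
      have h3 : P (σ k) (σ k) k + P (σ k) (σ k) l ≤ ∑ a, P (σ k) (σ k) a := by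
        rw [← Finset.sum_pair hne]
        exact Finset.sum_le_univ_sum_of_nonneg fun a => hpos _ _ _
      rw [hsum] at h3
      linarith
    set e : Equiv.Perm (Fin m) := Equiv.ofBijective σ (Finite.injective_iff_bijective.1 hσinj) with he
    set π := e.symm with hπ
    have hπ1 : ∀ i, P i i (π i) = 1 := by
      intro i
      have : σ (π i) = i := e.apply_symm_apply i
      have h := hσ (π i)
      rwa [this] at h
    refine ⟨π, ?_, ?_⟩
    · intro i j k hki hkj
      by_cases hij : i = j
      · subst hij
        have h3 : P i i (π i) + P i i k ≤ ∑ a, P i i a := by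
          rw [← Finset.sum_pair (Ne.symm hki)]
          exact Finset.sum_le_univ_sum_of_nonneg fun a => hpos _ _ _
        rw [hsum, hπ1] at h3
        have := hpos i i k
        linarith
      · -- the midpoint of the edge
        have hπij : π i ≠ π j := fun h => hij (π.injective h)
        set y : Fin m → ℝ := fun a => if a = π i then 1 / 2 else if a = π j then 1 / 2 else 0 with hy
        have hymem : y ∈ stdSimplex ℝ (Fin m) := by
          constructor
          · intro a
            simp only [hy]
            split_ifs <;> norm_num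
          · have : y = fun a => (if a = π i then (1 / 2 : ℝ) else 0) + (if a = π j then 1 / 2 else 0) := by
              funext a
              simp only [hy]
              by_cases h1 : a = π i
              · have h2 : a ≠ π j := fun h => hπij (h1.symm.trans h)
                simp [h1, hπij]
              · simp [h1]
            rw [this, Finset.sum_add_distrib, Finset.sum_ite_eq' , Finset.sum_ite_eq']
            simp only [Finset.mem_univ, if_true]
            norm_num
        rw [← hsurj] at hymem
        obtain ⟨x, hx, hxy⟩ := hymem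
        have hsupp : ∀ a, 0 < x a → a = i ∨ a = j := by
          intro a ha
          by_contra hcon
          push Not at hcon
          have h1 := hterm x hx.1 a a (π a)
          rw [hπ1, one_mul] at h1
          have h2 : V x (π a) = 0 := by
            have := congrFun hxy (π a)
            rw [this]
            simp only [hy]
            rw [if_neg (fun h => hcon.1 (π.injective h)), if_neg (fun h => hcon.2 (π.injective h))]
          nlinarith [mul_pos ha ha]
        have hzero : ∀ a, a ≠ i → a ≠ j → x a = 0 := by
          intro a h1 h2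
          rcases (hx.1 a).eq_or_lt with h | h
          · exact h.symm
          · rcases hsupp a h with h' | h'
            · exact absurd h' h1
            · exact absurd h' h2
        have hVform : ∀ b, V x b = P i i b * x i * x i + 2 * (P i j b * x i * x j) + P j j b * x j * x j := by
          intro b
          have hinner : ∀ a, ∑ c, P a c b * x a * x c = P a i b * x a * x i + P a j b * x a * x j := by
            intro a
            rw [← Finset.sum_pair hij (f := fun c => P a c b * x a * x c)]
            symm
            refine Finset.sum_subset (Finset.subset_univ _) fun c _ hc => ?_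
            simp only [Finset.mem_insert, Finset.mem_singleton, not_or] at hc
            rw [hzero c hc.1 hc.2, mul_zero]
          have houter : V x b = ∑ a, (P a i b * x a * x i + P a j b * x a * x j) := by
            simp only [hV]
            exact Finset.sum_congr rfl fun a _ => hinner a
          have h2 : ∑ a, (P a i b * x a * x i + P a j b * x a * x j) =
              (P i i b * x i * x i + P i j b * x i * x j) + (P j i b * x j * x i + P j j b * x j * x j) := by
            rw [← Finset.sum_pair hij (f := fun a => P a i b * x a * x i + P a j b * x a * x j)]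
            symm
            refine Finset.sum_subset (Finset.subset_univ _) fun c _ hc => ?_
            simp only [Finset.mem_insert, Finset.mem_singleton, not_or] at hc
            rw [hzero c hc.1 hc.2]; ring
          rw [houter, h2, hsymm j i b]
          ring
        have hxi : 0 < x i := by
          rcases (hx.1 i).eq_or_lt with h | h
          · exfalso
            have h1 : V x (π i) = P j j (π i) * x j * x j := by
              rw [hVform, ← h]; ring
            have h2 : P j j (π i) = 0 := by
              have h3 : P j j (π j) + P j j (π i) ≤ ∑ a, P j j a := by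
                rw [← Finset.sum_pair (Ne.symm hπij)]
                exact Finset.sum_le_univ_sum_of_nonneg fun a => hpos _ _ _
              rw [hsum, hπ1] at h3
              have := hpos j j (π i)
              linarith
            rw [h2] at h1
            have h4 := congrFun hxy (π i)
            rw [h1] at h4
            simp [hy] at h4
          · exact h
        have hxj : 0 < x j := by
          rcases (hx.1 j).eq_or_lt with h | h
          · exfalso
            have h1 : V x (π j) = P i i (π j) * x i * x i := by
              rw [hVform, ← h]; ring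
            have h2 : P i i (π j) = 0 := by
              have h3 : P i i (π i) + P i i (π j) ≤ ∑ a, P i i a := by
                rw [← Finset.sum_pair hπij]
                exact Finset.sum_le_univ_sum_of_nonneg fun a => hpos _ _ _
              rw [hsum, hπ1] at h3
              have := hpos i i (π j)
              linarith
            rw [h2] at h1
            have h4 := congrFun hxy (π j)
            rw [h1] at h4
            simp [hy] at h4
          · exact h
        have h1 := hterm x hx.1 i j k
        have h2 : V x k = 0 := by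
          have := congrFun hxy k
          rw [this]
          simp only [hy]
          rw [if_neg hki, if_neg hkj]
        rw [h2] at h1
        have h3 := hpos i j k
        have h4 := mul_pos hxi hxj
        nlinarith
    · intro π' hπ'
      have h1 := huniq π' hπ'
      ext i
      congr 1
      by_contra hne
      have h3 : P i i (π' i) + P i i (π i) ≤ ∑ a, P i i a := by
        rw [← Finset.sum_pair hne]
        exact Finset.sum_le_univ_sum_of_nonneg fun a => hpos _ _ _
      rw [hsum, hπ1, h1] at h3
      linarith
  · rintro ⟨π, hπ, -⟩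
    have hdiag := huniq π hπ
    -- the skew matrix
    set A : Fin m → Fin m → ℝ := fun k j => if k = j then 0 else 2 * P k j (π k) - 1 with hA
    have hpair : ∀ k j, k ≠ j → P k j (π k) + P k j (π j) = 1 := by
      intro k j hkj
      rw [← hsum k j, ← Finset.sum_pair (fun h => hkj (π.injective h)) (f := fun a => P k j a)]
      refine Finset.sum_subset (Finset.subset_univ _) fun c _ hc => ?_
      simp only [Finset.mem_insert, Finset.mem_singleton, not_or] at hc
      exact hπ k j c hc.1 hc.2
    have hskew : ∀ i j, A i j = - A j i := by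
      intro i j
      by_cases h : i = j
      · subst h; simp [hA]
      · simp only [hA, if_neg h, if_neg (Ne.symm h)]
        have := hpair i j h
        rw [hsymm j i (π j)]
        linarith
    have hA1 : ∀ i j, -1 ≤ A i j := by
      intro i j
      by_cases h : i = j
      · subst h; simp [hA]
      · simp only [hA, if_neg h]
        linarith [hpos i j (π i)]
    have hform : ∀ x k, V x (π k) = W A x k := by
      intro x k
      have h1 : ∀ i, i ≠ k → ∑ j, P i j (π k) * x i * x j = P i k (π k) * x i * x k := by
        intro i hik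
        refine Finset.sum_eq_single k (fun j _ hj => ?_) (fun h => absurd (Finset.mem_univ _) h)
        rw [hπ i j (π k) (fun h => hik (π.injective h).symm) (fun h => hj (π.injective h).symm)]
        ring
      have h2 : V x (π k) = ∑ i, (if i = k then ∑ j, P k j (π k) * x k * x j else P i k (π k) * x i * x k) := by
        simp only [hV]
        refine Finset.sum_congr rfl fun i _ => ?_
        by_cases hik : i = k
        · rw [if_pos hik, hik]
        · rw [if_neg hik]; exact h1 i hik
      have h3 : ∑ i ∈ Finset.univ.erase k, (if i = k then ∑ j, P k j (π k) * x k * x j else P i k (π k) * x i * x k)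
          = ∑ i ∈ Finset.univ.erase k, P i k (π k) * x i * x k := by
        refine Finset.sum_congr rfl fun i hi => ?_
        rw [if_neg (Finset.ne_of_mem_erase hi)]
      rw [h2, W, Finset.mul_sum, ← Finset.add_sum_erase _ _ (Finset.mem_univ k), if_pos rfl, h3,
        ← Finset.add_sum_erase (Finset.univ) (fun j => x k * ((1 + A k j) * x j)) (Finset.mem_univ k),
        ← Finset.add_sum_erase (Finset.univ) (fun j => P k j (π k) * x k * x j) (Finset.mem_univ k)]
      rw [add_assoc, ← Finset.sum_add_distrib, hdiag k]
      have h4 : A k k = 0 := by simp [hA]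
      rw [h4]
      congr 1
      · ring
      · refine Finset.sum_congr rfl fun i hi => ?_
        have hne := Finset.ne_of_mem_erase hi
        simp only [hA, if_neg (Ne.symm hne)]
        rw [hsymm i k (π k)]
        ring
    have hWsurj := W_surj hskew hA1
    -- transport along the permutation
    apply Set.Subset.antisymm
    · rintro _ ⟨x, hx, rfl⟩
      have : W A x ∈ stdSimplex ℝ (Fin m) := by rw [← hWsurj]; exact ⟨x, hx, rfl⟩
      refine ⟨fun k => ?_, ?_⟩
      · have h1 := this.1 (π.symm k)
        rw [← hform, π.apply_symm_apply] at h1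
        exact h1
      · rw [← this.2, ← Equiv.sum_comp π]
        exact Finset.sum_congr rfl fun k _ => hform x k
    · intro y hy
      have : (fun k => y (π k)) ∈ stdSimplex ℝ (Fin m) := by
        refine ⟨fun k => hy.1 _, ?_⟩
        rw [← hy.2]
        exact Equiv.sum_comp π y
      rw [← hWsurj] at this
      obtain ⟨x, hx, hxy⟩ := this
      refine ⟨x, hx, ?_⟩
      funext k
      have h1 := congrFun hxy (π.symm k)
      rw [← hform, π.apply_symm_apply] at h1
      exact h1

end Pool.Agent.Lib.MP_dca756_an.Exact
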